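import Mathlib
import Pool.Agent.Q52.FF

/-!
# Affinely equivalent Bose sets which are not related by the standard relations
-/

namespace Pool.Agent.Results.MP_50e481_nt.BoseNotClassified

/-- affine equivalence of subsets of `ℤ/M`. -/
def AffEquiv {M : ℕ} (A B : Set (ZMod M)) : Prop :=
  ∃ d s : ZMod M, IsUnit d ∧ B = (fun a => d * a + s) '' A

/-- `Bose_h(q, b)`, where `F` is the subfield with `q` elements of the field `K` with `q ^ h`
elements and `θ` is a generator of `Kˣ`. -/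
def bose (q h : ℕ) {K : Type} [Field K] (F : Subfield K) (θ : K) (b : ℕ) :
    Set (ZMod (q ^ h - 1)) :=
  {a | ∃ v ∈ F, θ ^ a.val = θ ^ b + v}

/-- `b` is admissible: `θ ^ b` has degree `h` over `F`. -/
def Adm (h : ℕ) {K : Type} [Field K] (F : Subfield K) (θ : K) (b : ℕ) : Prop :=
  (minpoly F (θ ^ b)).natDegree = h

/-- pairs of admissible values satisfying (i), (ii) or (iii). -/
def Step (p q h : ℕ) {K : Type} [Field K] (F : Subfield K) (θ : K) (b e : ℕ) : Prop :=
  Adm h F θ b ∧ Adm h F θ e ∧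
    (b ≡ e [MOD (q ^ h - 1) / (q - 1)] ∨ θ ^ b - θ ^ e ∈ F ∨
      ∃ i : ℕ, b ≡ p ^ i * e [MOD q ^ h - 1])

/-- The statement of Q1. -/
def BoseStatement : Prop :=
  ∀ (p r h : ℕ) (K : Type) [Field K] (F : Subfield K) (θ : K),
    p.Prime → 0 < r → 2 ≤ h → Nat.card F = p ^ r → Nat.card K = (p ^ r) ^ h → θ ≠ 0 →
    (∀ x : K, x ≠ 0 → ∃ n : ℕ, θ ^ n = x) →
    ∀ b e : ℕ, Adm h F θ b → Adm h F θ e →
      AffEquiv (bose (p ^ r) h F θ b) (bose (p ^ r) h F θ e) →
      Relation.EqvGen (Step p (p ^ r) h F θ) b e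

open Pool.Agent.Q52.FF

/-- two-element sets are affinely equivalent modulo a prime. -/
theorem affEquiv_pair {M : ℕ} [Fact M.Prime] (a b c d : ZMod M) (hab : a ≠ b) (hcd : c ≠ d) :
    AffEquiv {a, b} {c, d} := by
  have h1 : b - a ≠ 0 := sub_ne_zero.2 hab.symm
  have h2 : d - c ≠ 0 := sub_ne_zero.2 hcd.symm
  refine ⟨(d - c) / (b - a), c - (d - c) / (b - a) * a, (div_ne_zero h2 h1).isUnit, ?_⟩
  rw [Set.image_pair]
  congr 1
  · ring
  · congr 1
    field_simp
    ring

/-- (Q1) The implication asked for is false. -/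
theorem result : ¬ BoseStatement := by
  intro hQ
  have : Fact (Nat.Prime 2) := ⟨Nat.prime_two⟩
  have hM31 : Fact (Nat.Prime 31) := ⟨by norm_num⟩
  let K := GaloisField 2 5
  have hK : Nat.card K = 2 ^ 5 := GaloisField.card 2 5 (by norm_num)
  have hKfin : Finite K := Nat.finite_of_card_ne_zero (by rw [hK]; norm_num)
  let F : Subfield K := (algebraMap (ZMod 2) K).fieldRange
  have hF : Nat.card F = 2 := by
    have h1 : Nat.card F = Nat.card (ZMod 2) :=
      Nat.card_range_of_injective (algebraMap (ZMod 2) K).injective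
    rw [h1, Nat.card_eq_fintype_card, ZMod.card]
  obtain ⟨θ, hθ0, hθ⟩ := exists_gen (K := K)
  obtain ⟨hpow, hord⟩ := orderOf_gen (M := 31) hθ hθ0 (by rw [hK]; norm_num) (by norm_num)
  have h2 : (1 : K) + 1 = 0 := charTwo hF
  have hx2 : ∀ x : K, x + x = 0 := fun x => by linear_combination x * h2
  have hsq : ∀ x y : K, (x + y) ^ 2 = x ^ 2 + y ^ 2 := fun x y => by
    linear_combination x * y * h2
  have hK32 : ∀ x : K, x ^ 32 = x := by
    intro x
    by_cases hx : x = 0
    · rw [hx]; norm_num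
    · obtain ⟨n, rfl⟩ := hθ x hx
      rw [← pow_mul, mul_comm, pow_mul, show (32 : ℕ) = 31 + 1 by norm_num, pow_succ θ 31, hpow,
        one_mul]
  -- admissible values
  have hfr : Module.finrank F K = 5 := by
    have h3 := Module.natCard_eq_pow_finrank (K := F) (V := K)
    rw [hK, hF] at h3
    exact (Nat.pow_right_injective (le_refl 2) h3).symm
  have hadm : ∀ b : ℕ, θ ^ b ∉ F → Adm 5 F θ b := by
    intro b hb
    have hfd : FiniteDimensional F K := Module.finite_of_finrank_pos (by rw [hfr]; norm_num)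
    have h3 : (minpoly F (θ ^ b)).natDegree ∣ 5 := by
      have := minpoly.degree_dvd (K := F) (x := θ ^ b) (Algebra.IsIntegral.isIntegral _)
      rwa [hfr] at this
    rcases (Nat.dvd_prime (by norm_num : Nat.Prime 5)).1 h3 with h4 | h4
    · exfalso
      apply hb
      obtain ⟨y, hy⟩ := minpoly.natDegree_eq_one_iff.1 h4
      rw [← hy]
      exact y.2
    · exact h4
  have hF01 : ∀ v : K, v ∈ F ↔ v = 0 ∨ v = 1 := by
    intro v
    constructor
    · exact mem_of_card_two hF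
    · rintro (rfl | rfl)
      · exact F.zero_mem
      · exact F.one_mem
  -- all Bose sets are two-element sets
  have hbose : ∀ b : ℕ, θ ^ b ∉ F → ∃ a a' : ZMod 31, a ≠ a' ∧
      (bose (2 ^ 1) 5 F θ b : Set (ZMod 31)) = {a, a'} := by
    intro b hb
    have hb0 : θ ^ b ≠ 0 := fun h => hb (by rw [h]; exact F.zero_mem)
    have hb1 : θ ^ b + 1 ≠ 0 := by
      intro h
      apply hb
      have : θ ^ b = 1 := by linear_combination h - h2
      rw [this]; exact F.one_mem
    obtain ⟨a, ha⟩ := E_surj (M := 31) hθ hpow hb0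
    obtain ⟨a', ha'⟩ := E_surj (M := 31) hθ hpow hb1
    refine ⟨a, a', ?_, ?_⟩
    · rintro rfl
      rw [ha] at ha'
      have : (1 : K) = 0 := by linear_combination -ha'
      exact one_ne_zero this
    · ext c
      show (∃ v ∈ F, θ ^ (ZMod.val (n := 31) c) = θ ^ b + v) ↔ c = a ∨ c = a'
      constructor
      · rintro ⟨v, hv, hc⟩
        rcases (hF01 v).1 hv with rfl | rfl
        · left
          apply E_inj (M := 31) hord
          rw [hc, ha, add_zero]
        · right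
          apply E_inj (M := 31) hord
          rw [hc, ha']
      · rintro (rfl | rfl)
        · exact ⟨0, F.zero_mem, by rw [ha, add_zero]⟩
        · exact ⟨1, F.one_mem, ha'⟩
  -- the class of `1`
  let C : Set K := {v | ∃ i : ℕ, v = θ ^ (2 ^ i) ∨ v = θ ^ (2 ^ i) + 1}
  have hC1 : ∀ v ∈ C, v + 1 ∈ C := by
    rintro v ⟨i, rfl | rfl⟩
    · exact ⟨i, Or.inr rfl⟩
    · refine ⟨i, Or.inl ?_⟩
      linear_combination h2
  have hC2 : ∀ v ∈ C, v ^ 2 ∈ C := by
    rintro v ⟨i, rfl | rfl⟩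
    · refine ⟨i + 1, Or.inl ?_⟩
      rw [← pow_mul, pow_succ]
    · refine ⟨i + 1, Or.inr ?_⟩
      rw [hsq, ← pow_mul, pow_succ]
      ring
  have hC3 : ∀ (j : ℕ) (v : K), v ∈ C → v ^ (2 ^ j) ∈ C := by
    intro j
    induction j with
    | zero => intro v hv; simpa using hv
    | succ j ih =>
      intro v hv
      rw [pow_succ, pow_mul]
      exact hC2 _ (ih v hv)
  have hK32' : ∀ (j : ℕ) (v : K), v ^ (32 ^ j) = v := by
    intro j
    induction j with
    | zero => intro v; simp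
    | succ j ih =>
      intro v
      rw [pow_succ, pow_mul, ih, hK32]
  have hCiff : ∀ (j : ℕ) (v : K), v ^ (2 ^ j) ∈ C ↔ v ∈ C := by
    intro j v
    refine ⟨fun h => ?_, hC3 j v⟩
    have h3 := hC3 (4 * j) _ h
    rw [← pow_mul, ← pow_add, show j + 4 * j = 5 * j by ring, pow_mul,
      show (2 : ℕ) ^ 5 = 32 by norm_num, hK32' j v] at h3
    exact h3
  have hCadd : ∀ v w : K, v - w ∈ F → (v ∈ C ↔ w ∈ C) := by
    intro v w hvw
    rcases (hF01 _).1 hvw with h | h
    · rw [sub_eq_zero.1 h]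
    · have h3 : v = w + 1 := by linear_combination h
      have h4 : w = v + 1 := by linear_combination -h - h2
      constructor
      · intro hv; rw [h4]; exact hC1 v hv
      · intro hw; rw [h3]; exact hC1 w hw
  have hstep : ∀ b e : ℕ, Step 2 (2 ^ 1) 5 F θ b e → (θ ^ b ∈ C ↔ θ ^ e ∈ C) := by
    rintro b e ⟨-, -, h | h | ⟨i, h⟩⟩
    · have h3 : b ≡ e [MOD 31] := by
        have : ((2 ^ 1) ^ 5 - 1) / (2 ^ 1 - 1) = 31 := by norm_num
        rwa [this] at h
      rw [pow_mod hpow h3]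
    · exact hCadd _ _ h
    · have h3 : b ≡ 2 ^ i * e [MOD 31] := by
        have : (2 ^ 1) ^ 5 - 1 = 31 := by norm_num
        rwa [this] at h
      rw [pow_mod hpow h3, mul_comm, pow_mul, hCiff]
  have hgen : ∀ b e : ℕ, Relation.EqvGen (Step 2 (2 ^ 1) 5 F θ) b e →
      (θ ^ b ∈ C ↔ θ ^ e ∈ C) := by
    intro b e h
    induction h with
    | rel b e h => exact hstep b e h
    | refl b => exact Iff.rfl
    | symm b e _ ih => exact ih.symm
    | trans a b c _ _ ih1 ih2 => exact ih1.trans ih2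
  have hθF : θ ∉ F := by
    intro h
    rcases (hF01 θ).1 h with h | h
    · exact hθ0 h
    · rw [h, orderOf_one] at hord
      norm_num at hord
  have hall : ∀ v : K, v ∉ F → v ∈ C := by
    intro v hv
    have hv0 : v ≠ 0 := fun h => hv (by rw [h]; exact F.zero_mem)
    obtain ⟨e, rfl⟩ := hθ v hv0
    have hθ1 : θ ^ 1 ∉ F := by rwa [pow_one]
    obtain ⟨a, a', haa, hA⟩ := hbose 1 hθ1
    obtain ⟨c, c', hcc, hB⟩ := hbose e hv
    have hAE : AffEquiv (bose (2 ^ 1) 5 F θ 1) (bose (2 ^ 1) 5 F θ e) := by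
      have h3 := affEquiv_pair (M := 31) a a' c c' haa hcc
      rw [← hA, ← hB] at h3
      exact h3
    have h4 := hQ 2 1 5 K F θ Nat.prime_two Nat.one_pos (by norm_num) (by rw [hF]; norm_num)
      (by rw [hK]; norm_num) hθ0 hθ 1 e (hadm 1 hθ1) (hadm e hv) hAE
    exact (hgen 1 e h4).1 ⟨0, Or.inl (by simp)⟩
  -- counting
  have hsub : (F : Set K)ᶜ ⊆ (fun p : ℕ × ℕ => θ ^ (2 ^ p.1) + (p.2 : K)) ''
      ((Set.Iio 5) ×ˢ (Set.Iio 2)) := by
    intro v hv
    obtain ⟨i, hi⟩ := hall v hv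
    have h5 : θ ^ (2 ^ (i % 5)) = θ ^ (2 ^ i) := by
      conv_rhs => rw [← Nat.div_add_mod i 5, pow_add, pow_mul 2 5, pow_mul θ,
        show (2 : ℕ) ^ 5 = 32 by norm_num, hK32' _ θ]
    rcases hi with rfl | rfl
    · refine ⟨(i % 5, 0), ⟨Nat.mod_lt _ (by norm_num), by norm_num⟩, ?_⟩
      simp [h5]
    · refine ⟨(i % 5, 1), ⟨Nat.mod_lt _ (by norm_num), by norm_num⟩, ?_⟩
      simp [h5]
  have hfin : ((Set.Iio 5 : Set ℕ) ×ˢ (Set.Iio 2 : Set ℕ)).Finite :=
    (Set.finite_Iio 5).prod (Set.finite_Iio 2)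
  have h6 : ((F : Set K)ᶜ).ncard ≤ 10 := by
    calc ((F : Set K)ᶜ).ncard ≤ _ := Set.ncard_le_ncard hsub (hfin.image _)
      _ ≤ ((Set.Iio 5 : Set ℕ) ×ˢ (Set.Iio 2 : Set ℕ)).ncard := Set.ncard_image_le hfin
      _ = 10 := by
          rw [Set.ncard_prod, ← Finset.coe_Iio, Set.ncard_coe_finset, ← Finset.coe_Iio,
            Set.ncard_coe_finset]
          simp
  have h7 : ((F : Set K)ᶜ).ncard = 30 := by
    have h8 : (F : Set K).ncard = 2 := hF
    rw [Set.ncard_compl, h8, hK]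
    norm_num
  omega

end Pool.Agent.Results.MP_50e481_nt.BoseNotClassified
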