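import Mathlib
import Pool.Agent.Q52.FF

/-!
# Affinely equivalent Singer sets which are not related by the standard relations
-/

namespace Pool.Agent.Results.MP_50e481_nt.SingerNotClassified

/-- affine equivalence of subsets of `ℤ/M`. -/
def AffEquiv {M : ℕ} (A B : Set (ZMod M)) : Prop :=
  ∃ d s : ZMod M, IsUnit d ∧ B = (fun a => d * a + s) '' A

/-- `Singer_h(q, b)`, where `F` is the subfield with `q` elements of the field `K` with
`q ^ (h + 1)` elements and `θ` is a generator of `Kˣ`. -/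
def singer (q h : ℕ) {K : Type} [Field K] (F : Subfield K) (θ : K) (b : ℕ) :
    Set (ZMod ((q ^ (h + 1) - 1) / (q - 1))) :=
  {a | ∃ u ∈ F, ∃ v ∈ F, θ ^ a.val = u * θ ^ b + v}

/-- `b` is admissible: `θ ^ b` has degree `h + 1` over `F`. -/
def Adm (h : ℕ) {K : Type} [Field K] (F : Subfield K) (θ : K) (b : ℕ) : Prop :=
  (minpoly F (θ ^ b)).natDegree = h + 1

/-- pairs of admissible values satisfying (iv), (v), (vi) or (vii). -/
def Step (p q h : ℕ) {K : Type} [Field K] (F : Subfield K) (θ : K) (b e : ℕ) : Prop :=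
  Adm h F θ b ∧ Adm h F θ e ∧
    (b ≡ e [MOD (q ^ (h + 1) - 1) / (q - 1)] ∨
      (∃ i : ℕ, b ≡ p ^ i * e [MOD q ^ (h + 1) - 1]) ∨
      θ ^ b - θ ^ e ∈ F ∨
      ∃ r' ∈ F, ∃ t ∈ F, ∃ w ∈ F, (r' ≠ 0 ∨ t ≠ 0) ∧
        r' * θ ^ b + t * θ ^ (e + b) + w * θ ^ e ∈ F)

/-- The statement of Q2. -/
def SingerStatement : Prop :=
  ∀ (p r h : ℕ) (K : Type) [Field K] (F : Subfield K) (θ : K),
    p.Prime → 0 < r → 2 ≤ h → Nat.card F = p ^ r → Nat.card K = (p ^ r) ^ (h + 1) → θ ≠ 0 →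
    (∀ x : K, x ≠ 0 → ∃ n : ℕ, θ ^ n = x) →
    ∀ b e : ℕ, Adm h F θ b → Adm h F θ e →
      AffEquiv (singer (p ^ r) h F θ b) (singer (p ^ r) h F θ e) →
      Relation.EqvGen (Step p (p ^ r) h F θ) b e

open Pool.Agent.Q52.FF

theorem pow_two_mod (i : ℕ) : 2 ^ i % 33 = 2 ^ (i % 10) % 33 := by
  conv_lhs => rw [← Nat.div_add_mod i 10, pow_add, pow_mul, Nat.mul_mod, Nat.pow_mod]
  norm_num

theorem pow_two_ne (i : ℕ) : 2 ^ i % 33 ≠ 5 ∧ 2 ^ i % 33 ≠ 28 := by
  rw [pow_two_mod]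
  have h : i % 10 < 10 := Nat.mod_lt _ (by norm_num)
  generalize i % 10 = j at h
  interval_cases j <;> norm_num

/-- the degree of an element of the field with `1024` elements. -/
theorem degree_ten {K : Type} [Field K] (F : Subfield K) (hF : Nat.card F = 2)
    (hK : Nat.card K = 1024) (v : K) (h0 : v ≠ 0) (h1 : v ≠ 1) (h3 : v ^ 3 ≠ 1)
    (h31 : v ^ 31 ≠ 1) : (minpoly F v).natDegree = 10 := by
  have hKfin : Finite K := Nat.finite_of_card_ne_zero (by rw [hK]; norm_num)
  have hfr : Module.finrank F K = 10 := by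
    have h4 := Module.natCard_eq_pow_finrank (K := F) (V := K)
    rw [hK, hF, show (1024 : ℕ) = 2 ^ 10 by norm_num] at h4
    exact (Nat.pow_right_injective (le_refl 2) h4).symm
  have hfd : FiniteDimensional F K := Module.finite_of_finrank_pos (by rw [hfr]; norm_num)
  have hint : IsIntegral F v := Algebra.IsIntegral.isIntegral _
  obtain ⟨n, hn⟩ : ∃ n, n = (minpoly F v).natDegree := ⟨_, rfl⟩
  have h5 : n ∣ 10 := by
    have := minpoly.degree_dvd (K := F) (x := v) hint
    rwa [hfr, ← hn] at this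
  have hcardL : Nat.card (IntermediateField.adjoin F {v}) = 2 ^ n := by
    have h6 := Module.natCard_eq_pow_finrank (K := F) (V := IntermediateField.adjoin F {v})
    rw [hF, IntermediateField.adjoin.finrank hint, ← hn] at h6
    exact h6
  have hpow : v ^ (2 ^ n) = v := by
    have : Finite (IntermediateField.adjoin F {v}) :=
      Nat.finite_of_card_ne_zero (by rw [hcardL]; positivity)
    have := Fintype.ofFinite (IntermediateField.adjoin F {v})
    have h7 := FiniteField.pow_card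
      (⟨v, IntermediateField.mem_adjoin_simple_self F v⟩ : IntermediateField.adjoin F {v})
    rw [← Nat.card_eq_fintype_card, hcardL] at h7
    exact congrArg Subtype.val h7
  have h8 : n ≤ 10 := Nat.le_of_dvd (by norm_num) h5
  rw [← hn]
  have hcancel : ∀ k : ℕ, v ^ (k + 1) = v → v ^ k = 1 := by
    intro k hk
    rw [pow_succ] at hk
    exact mul_right_cancel₀ h0 (by rw [hk, one_mul])
  interval_cases n
  · omega
  · exact absurd (by simpa using hcancel 1 (by simpa using hpow)) h1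
  · exact absurd (hcancel 3 (by simpa using hpow)) h3
  · omega
  · omega
  · exact absurd (hcancel 31 (by simpa using hpow)) h31
  · omega
  · omega
  · omega
  · omega
  · rfl

theorem inv_lemma1 {K : Type} [Field K] (h2 : (1 : K) + 1 = 0) (X : K) (h0 : X ≠ 0)
    (h1 : X + 1 ≠ 0) : (X⁻¹ + 1)⁻¹ = (X + 1)⁻¹ + 1 := by
  symm
  apply eq_inv_of_mul_eq_one_left
  field_simp
  linear_combination (X + 1) * h2

theorem inv_lemma2 {K : Type} [Field K] (h2 : (1 : K) + 1 = 0) (X : K) (h0 : X ≠ 0)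
    (h1 : X + 1 ≠ 0) : ((X + 1)⁻¹ + 1)⁻¹ = X⁻¹ + 1 := by
  symm
  apply eq_inv_of_mul_eq_one_left
  field_simp
  linear_combination (X + 1) * h2

/-- (Q2) The implication asked for is false. -/
theorem result : ¬ SingerStatement := by
  intro hQ
  have : Fact (Nat.Prime 2) := ⟨Nat.prime_two⟩
  let K := GaloisField 2 10
  have hK : Nat.card K = 1024 := by
    have := GaloisField.card 2 10 (by norm_num)
    rw [this]; norm_num
  have hKfin : Finite K := Nat.finite_of_card_ne_zero (by rw [hK]; norm_num)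
  let F : Subfield K := (algebraMap (ZMod 2) K).fieldRange
  have hF : Nat.card F = 2 := by
    have h1 : Nat.card F = Nat.card (ZMod 2) :=
      Nat.card_range_of_injective (algebraMap (ZMod 2) K).injective
    rw [h1, Nat.card_eq_fintype_card, ZMod.card]
  obtain ⟨θ, hθ0, hθ⟩ := exists_gen (K := K)
  obtain ⟨hpow, hord⟩ := orderOf_gen (M := 1023) hθ hθ0 (by rw [hK]) (by norm_num)
  have h2 : (1 : K) + 1 = 0 := charTwo hF
  have hsq : ∀ x y : K, (x + y) ^ 2 = x ^ 2 + y ^ 2 := fun x y => by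
    linear_combination x * y * h2
  have hsq32 : ∀ x y : K, (x + y) ^ 32 = x ^ 32 + y ^ 32 := by
    intro x y
    have h3 : ∀ a : K, a ^ 32 = ((((a ^ 2) ^ 2) ^ 2) ^ 2) ^ 2 := fun a => by ring
    rw [h3, hsq, hsq, hsq, hsq, hsq, ← h3, ← h3]
  have hK1024 : ∀ x : K, x ^ 1024 = x := by
    intro x
    by_cases hx : x = 0
    · rw [hx]; norm_num
    · obtain ⟨n, rfl⟩ := hθ x hx
      rw [← pow_mul, mul_comm, pow_mul, show (1024 : ℕ) = 1023 + 1 by norm_num,
        pow_succ θ 1023, hpow, one_mul]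
  have hK1024' : ∀ (j : ℕ) (v : K), v ^ (1024 ^ j) = v := by
    intro j
    induction j with
    | zero => intro v; simp
    | succ j ih =>
      intro v
      rw [pow_succ, pow_mul, ih, hK1024]
  have hne : ∀ n : ℕ, ¬ 1023 ∣ n → θ ^ n ≠ 1 := by
    intro n hn h
    apply hn
    rw [← hord]
    exact orderOf_dvd_of_pow_eq_one h
  have hF01 : ∀ v : K, v ∈ F ↔ v = 0 ∨ v = 1 := by
    intro v
    constructor
    · exact mem_of_card_two hF
    · rintro (rfl | rfl)
      · exact F.zero_mem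
      · exact F.one_mem
  -- the elements
  obtain ⟨z, hz⟩ : ∃ z, z = θ ^ 31 := ⟨_, rfl⟩
  obtain ⟨x, hx⟩ : ∃ x, x = θ ^ 62 := ⟨_, rfl⟩
  obtain ⟨y, hy⟩ : ∃ y, y = θ ^ 310 := ⟨_, rfl⟩
  have hxz : x = z ^ 2 := by rw [hx, hz, ← pow_mul]
  have hyz : y = z ^ 10 := by rw [hy, hz, ← pow_mul]
  have hyx : y = x ^ 5 := by rw [hy, hx, ← pow_mul]
  have hz33 : z ^ 33 = 1 := by rw [hz, ← pow_mul]; exact hpow
  have hzne : ∀ n : ℕ, ¬ 33 ∣ n → z ^ n ≠ 1 := by
    intro n hn
    rw [hz, ← pow_mul]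
    apply hne
    omega
  have hx0 : x ≠ 0 := by rw [hx]; exact pow_ne_zero _ hθ0
  have hy0 : y ≠ 0 := by rw [hy]; exact pow_ne_zero _ hθ0
  have hz0 : z ≠ 0 := by rw [hz]; exact pow_ne_zero _ hθ0
  have hx33 : x ^ 33 = 1 := by rw [hxz, ← pow_mul, mul_comm, pow_mul, hz33, one_pow]
  have hy33 : y ^ 33 = 1 := by rw [hyz, ← pow_mul, mul_comm, pow_mul, hz33, one_pow]
  have hxne : ∀ n : ℕ, ¬ 33 ∣ n → x ^ n ≠ 1 := by
    intro n hn
    rw [hxz, ← pow_mul]
    apply hzne
    omega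
  have hx1 : x ≠ 1 := by have := hxne 1 (by norm_num); rwa [pow_one] at this
  have hy1 : y ≠ 1 := by rw [hyz]; exact hzne 10 (by norm_num)
  -- admissibility
  have hadmx : Adm 9 F θ 62 := by
    apply degree_ten F hF hK
    · exact pow_ne_zero _ hθ0
    · rw [← hx]; exact hx1
    · rw [← hx]; exact hxne 3 (by norm_num)
    · rw [← hx]; exact hxne 31 (by norm_num)
  have hadmy : Adm 9 F θ 310 := by
    apply degree_ten F hF hK
    · exact pow_ne_zero _ hθ0
    · rw [← hy]; exact hy1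
    · rw [← hy, hyx, ← pow_mul]; exact hxne 15 (by norm_num)
    · rw [← hy, hyx, ← pow_mul]; exact hxne 155 (by norm_num)
  -- cyclotomic elements
  obtain ⟨c, hc⟩ : ∃ c, c = z + z ^ 32 := ⟨_, rfl⟩
  obtain ⟨c', hc'⟩ : ∃ c', c' = z ^ 5 + z ^ 28 := ⟨_, rfl⟩
  have hxc : x + 1 = z * c := by
    rw [hxz, hc]
    linear_combination -hz33
  have hyc : y + 1 = z ^ 5 * c' := by
    rw [hyz, hc']
    linear_combination -hz33
  have hzz : z ^ 1024 = z := hK1024 z
  have hx10 : x + 1 ≠ 0 := by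
    intro h
    apply hx1
    linear_combination h - h2
  have hy10 : y + 1 ≠ 0 := by
    intro h
    apply hy1
    linear_combination h - h2
  have hc0 : c ≠ 0 := by
    rintro rfl
    rw [mul_zero] at hxc
    exact hx10 hxc
  have hc'0 : c' ≠ 0 := by
    rintro rfl
    rw [mul_zero] at hyc
    exact hy10 hyc
  have hzk : ∀ a b : ℕ, a ≡ b [MOD 33] → z ^ a = z ^ b := fun a b h => pow_mod hz33 h
  have hcan : ∀ a : K, a ≠ 0 → a ^ 32 = a → a ^ 31 = 1 := by
    intro a ha h
    rw [pow_succ] at h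
    exact mul_right_cancel₀ ha (by rw [h, one_mul])
  have hc31 : c ^ 31 = 1 := by
    apply hcan c hc0
    rw [hc, hsq32, ← pow_mul, hzk (32 * 32) 1 (by decide)]
    ring
  have hc'31 : c' ^ 31 = 1 := by
    apply hcan c' hc'0
    rw [hc', hsq32, ← pow_mul, ← pow_mul, hzk (5 * 32) 28 (by decide), hzk (28 * 32) 5 (by decide)]
    ring
  have hc1 : c ≠ 1 := by
    intro h
    rw [h, mul_one, hxz] at hxc
    apply hzne 3 (by norm_num)
    linear_combination (z - 1) * hxc + (z ^ 2 - z) * h2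
  have hc'1 : c' ≠ 1 := by
    intro h
    rw [h, mul_one, hyz] at hyc
    apply hzne 15 (by norm_num)
    linear_combination (z ^ 5 - 1) * hyc + (z ^ 10 - z ^ 5) * h2
  have hlog : ∀ a : K, a ≠ 0 → a ≠ 1 → a ^ 31 = 1 → ∃ j : ℕ, ¬ 31 ∣ j ∧ a = θ ^ (33 * j) := by
    intro a ha0 ha1 ha31
    obtain ⟨n, rfl⟩ := hθ a ha0
    rw [← pow_mul] at ha31
    have h3 : 1023 ∣ n * 31 := by rw [← hord]; exact orderOf_dvd_of_pow_eq_one ha31
    obtain ⟨j, rfl⟩ : 33 ∣ n := by omega
    refine ⟨j, fun h => ha1 ?_, rfl⟩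
    obtain ⟨k, rfl⟩ := h
    rw [← mul_assoc, pow_mul, show 33 * 31 = 1023 by norm_num, hpow, one_pow]
  obtain ⟨j, hj31, hcj⟩ := hlog c hc0 hc1 hc31
  obtain ⟨j', hj'31, hcj'⟩ := hlog c' hc'0 hc'1 hc'31
  -- the multiplier
  obtain ⟨d, hd33, hd31, hdj⟩ : ∃ d : ℕ, d ≡ 5 [MOD 33] ∧ ¬ 31 ∣ d ∧ j * d ≡ j' [MOD 31] := by
    have hM31 : Fact (Nat.Prime 31) := ⟨by norm_num⟩
    have hj0 : (j : ZMod 31) ≠ 0 := by
      rw [Ne, ZMod.natCast_eq_zero_iff]; exact hj31
    have hj'0 : (j' : ZMod 31) ≠ 0 := by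
      rw [Ne, ZMod.natCast_eq_zero_iff]; exact hj'31
    obtain ⟨d, hd1, hd2⟩ := Nat.chineseRemainder (by norm_num : Nat.Coprime 33 31) 5
      (((j' : ZMod 31) / j).val)
    have hd3 : (d : ZMod 31) = (j' : ZMod 31) / j := by
      have h3 : (d : ZMod 31) = ((((j' : ZMod 31) / j).val : ℕ) : ZMod 31) :=
        (ZMod.natCast_eq_natCast_iff _ _ _).2 hd2
      rw [h3, ZMod.natCast_zmod_val]
    refine ⟨d, hd1, ?_, ?_⟩
    · intro h
      have h3 : (d : ZMod 31) = 0 := by rw [ZMod.natCast_eq_zero_iff]; exact h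
      rw [hd3] at h3
      exact (div_ne_zero hj'0 hj0) h3
    · rw [← ZMod.natCast_eq_natCast_iff]
      push_cast
      rw [hd3]
      field_simp
  have hcd : c ^ d = c' := by
    rw [hcj, hcj', ← pow_mul]
    apply pow_mod hpow
    have h3 : 33 * (j * d) ≡ 33 * j' [MOD 33 * 31] := Nat.ModEq.mul_left' 33 hdj
    rw [mul_assoc]
    exact h3
  have hzd : z ^ d = z ^ 5 := hzk d 5 hd33
  have hxd : x ^ d = y := by
    rw [hxz, hyz, ← pow_mul, mul_comm, pow_mul, hzd, ← pow_mul]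
  have hx1d : (x + 1) ^ d = y + 1 := by
    rw [hxc, mul_pow, hzd, hcd, hyc]
  -- the affine equivalence
  have hdunit : IsUnit (d : ZMod 1023) := by
    rw [ZMod.isUnit_iff_coprime]
    have h3 : Nat.Coprime d 3 := by
      have : d % 3 = 2 := by
        have h4 : d % 33 = 5 := hd33
        omega
      rw [Nat.coprime_comm, Nat.Prime.coprime_iff_not_dvd (by norm_num)]
      omega
    have h11 : Nat.Coprime d 11 := by
      have : d % 11 = 5 := by
        have h4 : d % 33 = 5 := hd33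
        omega
      rw [Nat.coprime_comm, Nat.Prime.coprime_iff_not_dvd (by norm_num)]
      omega
    have h31 : Nat.Coprime d 31 := by
      rw [Nat.coprime_comm, Nat.Prime.coprime_iff_not_dvd (by norm_num)]
      exact hd31
    have h5 : (1023 : ℕ) = 3 * 11 * 31 := by norm_num
    rw [h5]
    exact (h3.mul_right h11).mul_right h31
  have huv : ∀ u v : K, u ∈ F → v ∈ F → (u ≠ 0 ∨ v ≠ 0) → (u * x + v) ^ d = u * y + v ∧
      u * x + v ≠ 0 ∧ u * y + v ≠ 0 := by
    intro u v hu hv h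
    rcases (hF01 u).1 hu with rfl | rfl <;> rcases (hF01 v).1 hv with rfl | rfl
    · simp at h
    · simp
    · refine ⟨?_, ?_, ?_⟩
      · rw [one_mul, add_zero, one_mul, add_zero, hxd]
      · simpa using hx0
      · simpa using hy0
    · refine ⟨?_, ?_, ?_⟩
      · rw [one_mul, one_mul, hx1d]
      · simpa using hx10
      · simpa using hy10
  have hAE : AffEquiv (singer (2 ^ 1) 9 F θ 62) (singer (2 ^ 1) 9 F θ 310) := by
    refine ⟨(d : ZMod 1023), 0, hdunit, ?_⟩
    ext a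
    show (∃ u ∈ F, ∃ v ∈ F, θ ^ (ZMod.val (n := 1023) a) = u * θ ^ 310 + v) ↔
      ∃ a' : ZMod 1023, (∃ u ∈ F, ∃ v ∈ F, θ ^ (ZMod.val (n := 1023) a') = u * θ ^ 62 + v) ∧
        (d : ZMod 1023) * a' + 0 = a
    rw [← hx, ← hy]
    constructor
    · rintro ⟨u, hu, v, hv, ha⟩
      have huv0 : u ≠ 0 ∨ v ≠ 0 := by
        by_contra hcon
        push Not at hcon
        rw [hcon.1, hcon.2, zero_mul, add_zero] at ha
        exact pow_ne_zero _ hθ0 ha
      obtain ⟨h3, h4, h5⟩ := huv u v hu hv huv0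
      obtain ⟨a', ha'⟩ := E_surj (M := 1023) hθ hpow h4
      refine ⟨a', ⟨u, hu, v, hv, ha'⟩, ?_⟩
      apply E_inj (M := 1023) hord
      rw [add_zero, E_mul hpow, ha', h3, ha]
    · rintro ⟨a', ⟨u, hu, v, hv, ha'⟩, rfl⟩
      have huv0 : u ≠ 0 ∨ v ≠ 0 := by
        by_contra hcon
        push Not at hcon
        rw [hcon.1, hcon.2, zero_mul, add_zero] at ha'
        exact pow_ne_zero _ hθ0 ha'
      obtain ⟨h3, h4, h5⟩ := huv u v hu hv huv0
      refine ⟨u, hu, v, hv, ?_⟩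
      rw [add_zero, E_mul hpow, ha', h3]
  have hEG := hQ 2 1 9 K F θ Nat.prime_two Nat.one_pos (by norm_num) (by rw [hF]; norm_num)
      (by rw [hK]; norm_num) hθ0 hθ 62 310 hadmx hadmy hAE
  -- the class of `x`
  have hX : ∀ i : ℕ, x ^ (2 ^ i) ≠ 0 ∧ x ^ (2 ^ i) + 1 ≠ 0 ∧ (x ^ (2 ^ i)) ^ 3 ≠ 1 := by
    intro i
    have h3 : ∀ n : ℕ, ¬ 33 ∣ n → (x ^ (2 ^ i)) ^ n ≠ 1 := by
      intro n hn h
      apply hxne n hn
      have h4 : (x ^ n) ^ (2 ^ i) = 1 := by rw [← pow_mul, mul_comm, pow_mul]; exact h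
      have h5 : ((x ^ n) ^ (2 ^ i)) ^ (2 ^ (9 * i)) = x ^ n := by
        rw [← pow_mul, ← pow_add, show i + 9 * i = 10 * i by ring, pow_mul,
          show (2 : ℕ) ^ 10 = 1024 by norm_num, hK1024']
      rw [← h5, h4, one_pow]
    refine ⟨pow_ne_zero _ hx0, ?_, h3 3 (by norm_num)⟩
    intro h
    apply h3 1 (by norm_num)
    rw [pow_one]
    linear_combination h - h2
  let S : Set K := {v | ∃ i : ℕ, (v = x ^ (2 ^ i) ∨ v = x ^ (2 ^ i) + 1) ∨
    (v = (x ^ (2 ^ i))⁻¹ ∨ v = (x ^ (2 ^ i))⁻¹ + 1) ∨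
    (v = (x ^ (2 ^ i) + 1)⁻¹ ∨ v = (x ^ (2 ^ i) + 1)⁻¹ + 1)}
  have hS1 : ∀ v ∈ S, v + 1 ∈ S := by
    rintro v ⟨i, (rfl | rfl) | (rfl | rfl) | (rfl | rfl)⟩
    · exact ⟨i, Or.inl (Or.inr rfl)⟩
    · exact ⟨i, Or.inl (Or.inl (by linear_combination h2))⟩
    · exact ⟨i, Or.inr (Or.inl (Or.inr rfl))⟩
    · exact ⟨i, Or.inr (Or.inl (Or.inl (by linear_combination h2)))⟩
    · exact ⟨i, Or.inr (Or.inr (Or.inr rfl))⟩
    · exact ⟨i, Or.inr (Or.inr (Or.inl (by linear_combination h2)))⟩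
  have hSinv : ∀ v ∈ S, v⁻¹ ∈ S := by
    rintro v ⟨i, (rfl | rfl) | (rfl | rfl) | (rfl | rfl)⟩
    · exact ⟨i, Or.inr (Or.inl (Or.inl rfl))⟩
    · exact ⟨i, Or.inr (Or.inr (Or.inl rfl))⟩
    · exact ⟨i, Or.inl (Or.inl (inv_inv _))⟩
    · refine ⟨i, Or.inr (Or.inr (Or.inr ?_))⟩
      obtain ⟨h3, h4, -⟩ := hX i
      exact inv_lemma1 h2 _ h3 h4
    · exact ⟨i, Or.inl (Or.inr (inv_inv _))⟩
    · refine ⟨i, Or.inr (Or.inl (Or.inr ?_))⟩
      obtain ⟨h3, h4, -⟩ := hX i
      exact inv_lemma2 h2 _ h3 h4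
  have hS2 : ∀ v ∈ S, v ^ 2 ∈ S := by
    have hp : ∀ i : ℕ, (x ^ (2 ^ i)) ^ 2 = x ^ (2 ^ (i + 1)) := fun i => by
      rw [← pow_mul, pow_succ]
    rintro v ⟨i, (rfl | rfl) | (rfl | rfl) | (rfl | rfl)⟩
    · exact ⟨i + 1, Or.inl (Or.inl (hp i))⟩
    · exact ⟨i + 1, Or.inl (Or.inr (by rw [hsq, hp, one_pow]))⟩
    · exact ⟨i + 1, Or.inr (Or.inl (Or.inl (by rw [inv_pow, hp])))⟩
    · exact ⟨i + 1, Or.inr (Or.inl (Or.inr (by rw [hsq, inv_pow, hp, one_pow])))⟩
    · exact ⟨i + 1, Or.inr (Or.inr (Or.inl (by rw [inv_pow, hsq, hp, one_pow])))⟩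
    · exact ⟨i + 1, Or.inr (Or.inr (Or.inr (by rw [hsq, inv_pow, hsq, hp, one_pow])))⟩
  have hS3 : ∀ (j : ℕ) (v : K), v ∈ S → v ^ (2 ^ j) ∈ S := by
    intro j
    induction j with
    | zero => intro v hv; simpa using hv
    | succ j ih =>
      intro v hv
      rw [pow_succ, pow_mul]
      exact hS2 _ (ih v hv)
  have hSfrob : ∀ (j : ℕ) (v : K), v ^ (2 ^ j) ∈ S ↔ v ∈ S := by
    intro j v
    refine ⟨fun h => ?_, hS3 j v⟩
    have h3 := hS3 (9 * j) _ h
    rw [← pow_mul, ← pow_add, show j + 9 * j = 10 * j by ring, pow_mul,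
      show (2 : ℕ) ^ 10 = 1024 by norm_num, hK1024' j v] at h3
    exact h3
  have hS1iff : ∀ v : K, v + 1 ∈ S ↔ v ∈ S := by
    intro v
    refine ⟨fun h => ?_, hS1 v⟩
    have h3 := hS1 _ h
    have h4 : v + 1 + 1 = v := by linear_combination h2
    rwa [h4] at h3
  have hSinviff : ∀ v : K, v⁻¹ ∈ S ↔ v ∈ S := by
    intro v
    refine ⟨fun h => ?_, hSinv v⟩
    have h3 := hSinv _ h
    rwa [inv_inv] at h3
  have hSadd : ∀ v w : K, v - w ∈ F → (v ∈ S ↔ w ∈ S) := by
    intro v w hvw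
    rcases (hF01 _).1 hvw with h | h
    · rw [sub_eq_zero.1 h]
    · have h3 : v = w + 1 := by linear_combination h
      rw [h3]
      exact hS1iff w
  -- admissible elements are not in `F`
  have hnotF : ∀ b : ℕ, Adm 9 F θ b → θ ^ b ≠ 1 := by
    intro b hb h
    unfold Adm at hb
    rw [h, minpoly.one] at hb
    have h3 : (Polynomial.X - 1 : Polynomial F).natDegree = 1 := by
      have := Polynomial.natDegree_X_sub_C (1 : F)
      simpa using this
    rw [h3] at hb
    norm_num at hb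
  have hstep : ∀ b e : ℕ, Step 2 (2 ^ 1) 9 F θ b e → (θ ^ b ∈ S ↔ θ ^ e ∈ S) := by
    rintro b e ⟨hb, he, h | ⟨i, h⟩ | h | ⟨r', hr', t, ht, w, hw, hrt, h⟩⟩
    · have h3 : b ≡ e [MOD 1023] := by
        have : ((2 ^ 1) ^ (9 + 1) - 1) / (2 ^ 1 - 1) = 1023 := by norm_num
        rwa [this] at h
      rw [pow_mod hpow h3]
    · have h3 : b ≡ 2 ^ i * e [MOD 1023] := by
        have : (2 ^ 1) ^ (9 + 1) - 1 = 1023 := by norm_num
        rwa [this] at h
      rw [pow_mod hpow h3, mul_comm, pow_mul, hSfrob]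
    · exact hSadd _ _ h
    · have hb1 := hnotF b hb
      have he1 := hnotF e he
      have hb0 : θ ^ b ≠ 0 := pow_ne_zero _ hθ0
      have he0 : θ ^ e ≠ 0 := pow_ne_zero _ hθ0
      rw [pow_add] at h
      generalize θ ^ b = v at *
      generalize θ ^ e = v' at *
      have hv1 : v + 1 ≠ 0 := fun hh => hb1 (by linear_combination hh - h2)
      have hv'1 : v' + 1 ≠ 0 := fun hh => he1 (by linear_combination hh - h2)
      rcases (hF01 t).1 ht with rfl | rfl
      · rcases (hF01 r').1 hr' with rfl | rfl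
        · simp at hrt
        · rcases (hF01 w).1 hw with rfl | rfl
          · exfalso
            rcases (hF01 _).1 h with h | h
            · apply hb0; linear_combination h
            · apply hb1; linear_combination h
          · apply hSadd
            rcases (hF01 _).1 h with h | h
            · rw [hF01]; left; linear_combination h - v' * h2
            · rw [hF01]; right; linear_combination h - v' * h2
      · rcases (hF01 r').1 hr' with rfl | rfl <;> rcases (hF01 w).1 hw with rfl | rfl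
        · rcases (hF01 _).1 h with h | h
          · exfalso
            apply mul_ne_zero hb0 he0
            linear_combination h
          · have h3 : v = v'⁻¹ := by
              apply eq_inv_of_mul_eq_one_left
              linear_combination h
            rw [h3]
            exact hSinviff v'
        · rcases (hF01 _).1 h with h | h
          · exfalso
            apply mul_ne_zero he0 hv1
            linear_combination h
          · have h3 : v + 1 = v'⁻¹ := by
              apply eq_inv_of_mul_eq_one_left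
              linear_combination h
            rw [← hS1iff v, h3]
            exact hSinviff v'
        · rcases (hF01 _).1 h with h | h
          · exfalso
            apply mul_ne_zero hb0 hv'1
            linear_combination h
          · have h3 : v = (v' + 1)⁻¹ := by
              apply eq_inv_of_mul_eq_one_left
              linear_combination h
            rw [h3, hSinviff]
            exact hS1iff v'
        · rcases (hF01 _).1 h with h | h
          · have h3 : v + 1 = (v' + 1)⁻¹ := by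
              apply eq_inv_of_mul_eq_one_left
              linear_combination h
            rw [← hS1iff v, h3, hSinviff]
            exact hS1iff v'
          · exfalso
            apply mul_ne_zero hv1 hv'1
            linear_combination h + h2
  have hgen : ∀ b e : ℕ, Relation.EqvGen (Step 2 (2 ^ 1) 9 F θ) b e →
      (θ ^ b ∈ S ↔ θ ^ e ∈ S) := by
    intro b e h
    induction h with
    | rel b e h => exact hstep b e h
    | refl b => exact Iff.rfl
    | symm b e _ ih => exact ih.symm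
    | trans a b c _ _ ih1 ih2 => exact ih1.trans ih2
  have hyS : y ∈ S := by
    rw [hy]
    apply (hgen 62 310 hEG).1
    rw [← hx]
    exact ⟨0, Or.inl (Or.inl (by simp))⟩
  -- contradiction
  obtain ⟨i, hi⟩ := hyS
  obtain ⟨hX0, hX10, hX3⟩ := hX i
  have hXx : ∀ n : ℕ, x ^ n = 1 → 33 ∣ n := by
    intro n h
    by_contra hcon
    exact hxne n hcon h
  have hX33 : (x ^ (2 ^ i)) ^ 33 = 1 := by
    rw [← pow_mul, mul_comm, pow_mul, hx33, one_pow]
  have hkey : (x ^ (2 ^ i) + 1) ^ 33 ≠ 1 := by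
    intro h
    rw [show (33 : ℕ) = 32 + 1 by norm_num, pow_succ, hsq32, one_pow] at h
    generalize x ^ (2 ^ i) = X at *
    apply hX3
    have h3 : X ^ 2 + X + 1 = 0 := by
      linear_combination X * h - (X + 1) * hX33
    linear_combination (X - 1) * h3
  rcases hi with (h | h) | (h | h) | (h | h)
  · rw [hyx] at h
    have h3 : x ^ (5 + 32 * 2 ^ i) = 1 := by
      rw [pow_add, h, mul_comm 32, pow_mul, ← pow_succ']
      exact hX33
    have h4 := hXx _ h3
    have h5 := (pow_two_ne i).1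
    omega
  · apply hkey
    rw [← h]; exact hy33
  · rw [hyx] at h
    have h3 : x ^ (5 + 2 ^ i) = 1 := by
      rw [pow_add, h, inv_mul_cancel₀ hX0]
    have h4 := hXx _ h3
    have h5 := (pow_two_ne i).2
    omega
  · apply hkey
    have h3 : x ^ (2 ^ i) + 1 = y * x ^ (2 ^ i) := by
      rw [h, add_mul, inv_mul_cancel₀ hX0, one_mul, add_comm]
    rw [h3, mul_pow, hy33, hX33, one_mul]
  · apply hkey
    have h3 : y * (x ^ (2 ^ i) + 1) = 1 := by
      rw [h, inv_mul_cancel₀ hX10]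
    have h4 : (y * (x ^ (2 ^ i) + 1)) ^ 33 = 1 := by rw [h3, one_pow]
    rwa [mul_pow, hy33, one_mul] at h4
  · apply hkey
    have h3 : y * (x ^ (2 ^ i) + 1) = x ^ (2 ^ i) := by
      rw [h, add_mul, inv_mul_cancel₀ hX10, one_mul]
      linear_combination h2
    have h4 : (y * (x ^ (2 ^ i) + 1)) ^ 33 = 1 := by rw [h3, hX33]
    rwa [mul_pow, hy33, one_mul] at h4

end Pool.Agent.Results.MP_50e481_nt.SingerNotClassified
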